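import Pool.Agent.U3.QP.Strong
import Pool.Agent.U3.SD.SpecGeo
import Pool.Agent.U981.EQ.Main

/-!
# Equivariant self-dual decompositions of varieties whose lower half is finite-dimensional
-/

set_option autoImplicit false

open CategoryTheory AlgebraicGeometry

universe u v w

namespace Pool.Agent.U3.QP

open Pool.Agent.H914 Pool.Agent.H914.VarClass Pool.Agent.H914.VarClass.Obj Pool.Agent.W492.BB
  Pool.Agent.W550.Corr Pool.Agent.TH133 Pool.Agent.TH829.Kim Pool.Agent.U3.SD Pool.Agent.U981.EQ

set_option linter.unusedSectionVars false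

variable {k : Type u} [Field k] {𝒱 : VarClass k}

variable {C : TheoryData.{u, v, 0} 𝒱 ℚ} [hC : IsChowProj C] {K : Type w} [Field K]
  {H : WeilTheoryData.{u, v, w} C K} [hH : IsWeilProj H] {X Y Z W : 𝒱.Obj}
  {G : Type} [Group G]

include hC hH

/-- The base case. -/
theorem eqSD_lower [Finite G] {ρ : G → C.A (X.prod X)} (hρ : IsOrthAction C ρ)
    (hX : LowerFinite H X) : EqSD H ρ := by
  classical
  haveI := Fintype.ofFinite G
  unfold LowerFinite at hX
  set d := X.dim with hd
  have hX' : ∀ n, ∃ a : C.A (X.prod X), n < d → a ∈ throughNil H X ∧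
      IsProj H n a := by
    intro n
    by_cases hn : n < d
    · obtain ⟨a, ha⟩ := hX n hn
      exact ⟨a, fun _ => ha⟩
    · exact ⟨0, fun h => absurd h hn⟩
  choose a ha using hX'
  have ha0 : ∀ n < d, a n ∈ C.gr (X.prod X) X.dim := fun n hn => (ha n hn).2.1
  let A : ℕ → cor0 C X := fun n => if hn : n < d then ⟨a n, ha0 n hn⟩ else 0
  have hA : ∀ n < d, (A n : Cor C X) = a n := fun n hn => by
    simp only [A]
    rw [dif_pos hn]
  have hact : ∀ n < d, ∀ (m : ℤ) (x : H.A X), x ∈ H.gr X m →
      actH C X H (A n : Cor C X) x = if m = n then x else 0 := fun n hn m x hx => by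
    rw [hA n hn]
    exact isProj_act (ha n hn).2 m x hx
  have hact' : ∀ n < d, ∀ (m : ℤ) (x : H.A X), x ∈ H.gr X m →
      actH C X H (tpR C X (A n : Cor C X)) x = if m = (2 * X.dim - n : ℕ) then x else 0 :=
    fun n hn m x hx => act_tp_proj (by omega) (hact n hn) m x hx
  have c1 : ∀ m < d, ∀ n < d, JH H X (A m * A n - if m = n then A m else 0) := by
    intro m hm n hn
    unfold JH
    rw [AddSubgroupClass.coe_sub, MulMemClass.coe_mul, map_sub, map_mul, sub_eq_zero]
    apply ext_gr H
    intro j x hx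
    rw [Module.End.mul_apply, hact n hn j x hx]
    by_cases hmn : m = n
    · rw [if_pos hmn, hact m hm j x hx]
      by_cases hj : j = n
      · rw [if_pos hj, if_pos (by omega), hact m hm j x hx, if_pos (by omega)]
      · rw [if_neg hj, if_neg (by omega), map_zero]
    · rw [if_neg hmn, ZeroMemClass.coe_zero, map_zero, LinearMap.zero_apply]
      by_cases hj : j = n
      · rw [if_pos hj, hact m hm j x hx, if_neg (by omega)]
      · rw [if_neg hj, map_zero]
  have c2 : ∀ m < d, ∀ n < d, JH H X (A m * tp0 C X (A n)) := by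
    intro m hm n hn
    unfold JH
    rw [MulMemClass.coe_mul, map_mul, tp0_coe]
    apply ext_gr H
    intro j x hx
    rw [Module.End.mul_apply, hact' n hn j x hx, LinearMap.zero_apply]
    by_cases hj : j = (2 * X.dim - n : ℕ)
    · rw [if_pos hj, hact m hm j x hx, if_neg (by omega)]
    · rw [if_neg hj, map_zero]
  have c3 : ∀ m < d, ∀ n < d, JH H X (tp0 C X (A m) * A n) := by
    intro m hm n hn
    unfold JH
    rw [MulMemClass.coe_mul, map_mul, tp0_coe]
    apply ext_gr H
    intro j x hx
    rw [Module.End.mul_apply, hact n hn j x hx, LinearMap.zero_apply]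
    by_cases hj : j = n
    · rw [if_pos hj, hact' m hm j x hx, if_neg (by omega)]
    · rw [if_neg hj, map_zero]
  have c4 : ∀ n < d, ∃ I : Submodule ℚ (cor0 C X), (∀ r j, JH H X j → r * A n * j ∈ I) ∧
      ∀ x ∈ I, IsNilpotent x := by
    intro n hn
    apply Str.exists_nil
    rw [hA n hn]
    exact str_of_mem (ha n hn).1
  have c5 : ∀ n < d, ∀ g, JH H X (hom hρ.toIsAction g * A n - A n * hom hρ.toIsAction g) := by
    intro n hn g
    unfold JH
    rw [AddSubgroupClass.coe_sub, MulMemClass.coe_mul, MulMemClass.coe_mul, map_sub, map_mul,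
      map_mul, sub_eq_zero]
    apply ext_gr H
    intro j x hx
    have h1 : actH C X H (hom hρ.toIsAction g : Cor C X) x ∈ H.gr X j :=
      actH_mem0 (hom hρ.toIsAction g).2 hx
    rw [Module.End.mul_apply, Module.End.mul_apply, hact n hn j x hx, hact n hn j _ h1]
    split_ifs
    · rfl
    · rw [map_zero]
  obtain ⟨q, q1, q2, q3, q4, q5⟩ := exists_half_eq isInv_tp0 isIdl_JH (hom hρ.toIsAction)
    (fun g => Subtype.ext (hρ.orth g)) d A c1 c2 c3 c4 c5
  have hrho : ∀ n < X.dim, ∀ (m : ℤ) (x : H.A X), x ∈ H.gr X m →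
      rhoH H X (q n) x = if m = n then x else 0 := by
    intro n hn m x hx
    have h1 := q4 n hn
    unfold JH at h1
    rw [AddSubgroupClass.coe_sub, map_sub, sub_eq_zero] at h1
    rw [rhoH_apply, h1]
    exact hact n hn m x hx
  obtain ⟨P, p1, p2, p3⟩ := exists_SD_of_half (H := H) X q q1 q2 q3 hrho
  refine ⟨P, p1, p2, fun g i => ?_⟩
  have key := p3 (hom hρ.toIsAction g : Cor C X) (fun n _ => ⟨?_, ?_⟩) i
  · exact key.symm
  · exact congrArg Subtype.val (q5 n g)
  · have h1 := congrArg (tp0 C X) (q5 n g⁻¹)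
    rw [isInv_tp0.mul, isInv_tp0.mul] at h1
    have h2 : tp0 C X (hom hρ.toIsAction g⁻¹) = hom hρ.toIsAction g := by
      apply Subtype.ext
      have := hρ.orth g⁻¹
      rw [inv_inv] at this
      exact this
    rw [h2] at h1
    exact (congrArg Subtype.val h1).symm

end Pool.Agent.U3.QP
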