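import Pool.Agent.U3.QP.Defs
import Pool.Agent.TH133.Hyper
import Pool.Agent.U981.EQ.Main

/-!
# Products, powers, orthogonal sums
-/

set_option autoImplicit false

open CategoryTheory AlgebraicGeometry

universe u v w

namespace Pool.Agent.U3.QP

open Pool.Agent.H914 Pool.Agent.H914.VarClass Pool.Agent.H914.VarClass.Obj Pool.Agent.W492.BB
  Pool.Agent.W550.Corr Pool.Agent.TH133 Pool.Agent.TH829.Kim Pool.Agent.U3.SD Pool.Agent.U981.EQ
  Pool.Agent.Y133.Half Pool.Agent.Y107

set_option linter.unusedSectionVars false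

variable {k : Type u} [Field k] {𝒱 : VarClass k}

variable {C : TheoryData.{u, v, 0} 𝒱 ℚ} [hC : IsChowProj C] {K : Type w} [Field K]
  {H : WeilTheoryData.{u, v, w} C K} [hH : IsWeilProj H] {X Y Z : 𝒱.Obj}
  {G : Type} [Group G]

include hC hH

omit hH in
lemma tens_zero' (Γ : C.A (X.prod X)) : tens C Γ (0 : C.A (Y.prod Y)) = 0 := by
  have := tens_sum_right (C := C) (∅ : Finset ℕ) Γ (fun _ => (0 : C.A (Y.prod Y)))
  rwa [Finset.sum_empty, Finset.sum_empty] at this

omit hH in
lemma zero_tens' (Γ : C.A (Y.prod Y)) : tens C (0 : C.A (X.prod X)) Γ = 0 := by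
  rw [tens, map_zero, zero_mul]

lemma prodCK_eq {π : ℕ → C.A (X.prod X)} {ρ : ℕ → C.A (Y.prod Y)} (hπ : IsCK H X π) (n : ℕ) :
    prodCK C π ρ n = ∑ i ∈ Finset.range (2 * X.dim + 1),
      tens C (π i) (if i ≤ n then ρ (n - i) else 0) := by
  unfold prodCK
  have e1 : ∑ i ∈ Finset.range (n + 1), tens C (π i) (ρ (n - i)) =
      ∑ i ∈ Finset.range (n + 1), tens C (π i) (if i ≤ n then ρ (n - i) else 0) :=
    Finset.sum_congr rfl fun i hi => by
      rw [Finset.mem_range] at hi
      rw [if_pos (by omega)]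
  rw [e1]
  trans ∑ i ∈ Finset.range (n + 1 + (2 * X.dim + 1)),
      tens C (π i) (if i ≤ n then ρ (n - i) else 0)
  · refine Finset.sum_subset (fun i hi => ?_) fun i _ hi => ?_
    · rw [Finset.mem_range] at *; omega
    · rw [Finset.mem_range] at hi
      rw [if_neg (by omega), tens_zero']
  · symm
    refine Finset.sum_subset (fun i hi => ?_) fun i _ hi => ?_
    · rw [Finset.mem_range] at *; omega
    · rw [Finset.mem_range] at hi
      rw [hπ.out i (by omega), zero_tens']

/-- Products of self-dual decompositions are self-dual. -/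
theorem selfDual_prod {π : ℕ → C.A (X.prod X)} {ρ : ℕ → C.A (Y.prod Y)} (hπ : IsCK H X π)
    (hρ : IsCK H Y ρ) (h : IsSelfDual C π) (h' : IsSelfDual C ρ) :
    IsSelfDual C (prodCK C π ρ) := by
  intro n hn
  have hd : (X.prod Y).dim = X.dim + Y.dim := dim_prod X Y
  rw [hd] at hn ⊢
  rw [prodCK_eq hπ, prodCK_eq hπ, tp_sum,
    ← Finset.sum_range_reflect (fun i => tens C (π i)
      (if i ≤ 2 * (X.dim + Y.dim) - n then ρ (2 * (X.dim + Y.dim) - n - i) else 0))]
  refine Finset.sum_congr rfl fun i hi => ?_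
  rw [Finset.mem_range] at hi
  rw [tp_tens, h i (by omega), show 2 * X.dim + 1 - 1 - i = 2 * X.dim - i by omega]
  congr 1
  by_cases h1 : i ≤ n
  · rw [if_pos h1]
    by_cases h2 : n - i ≤ 2 * Y.dim
    · rw [h' _ h2, if_pos (by omega)]
      congr 1
      omega
    · rw [hρ.out _ (by omega), tp_zero]
      by_cases h3 : 2 * X.dim - i ≤ 2 * (X.dim + Y.dim) - n
      · omega
      · rw [if_neg h3]
  · rw [if_neg h1, tp_zero, if_pos (by omega), hρ.out _ (by omega)]

/-- Products. -/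
theorem eqSD_prod {ρ : G → C.A (X.prod X)} {σ : G → C.A (Y.prod Y)} (h : EqSD H ρ)
    (h' : EqSD H σ) : EqSD H (fun g => tens C (ρ g) (σ g)) := by
  obtain ⟨π, hπ, hs, hg⟩ := h
  obtain ⟨π', hπ', hs', hg'⟩ := h'
  refine ⟨prodCK C π π', hπ.prod hπ', selfDual_prod hπ hπ' hs hs', fun g n => ?_⟩
  unfold prodCK
  rw [comp_sum, sum_comp]
  refine Finset.sum_congr rfl fun i _ => ?_
  rw [tens_comp', tens_comp', hg, hg']

/-- The decomposition of a power is self-dual. -/
lemma selfDual_pw {π : ℕ → C.A (X.prod X)} (h : IsCK H X π) (hs : IsSelfDual C π) :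
    ∀ n, IsSelfDual C (pwCK C π n)
  | 0 => by
    rw [pwCK_zero]
    exact hs
  | n + 1 => by
    rw [pwCK_succ]
    exact selfDual_prod (isCK_pw h n) h (selfDual_pw h hs n) hs

section sum

/-- The decomposition of a sum. -/
noncomputable def sumCK (C : TheoryData.{u, v, 0} 𝒱 ℚ) {Z : 𝒱.Obj} {T : Type} [Fintype T]
    {W : T → 𝒱.Obj} (r : T → ℕ) (a : ∀ t, C.A (Z.prod (W t))) (b : ∀ t, C.A ((W t).prod Z))
    (π : ∀ t, ℕ → C.A ((W t).prod (W t))) (i : ℕ) : C.A (Z.prod Z) :=
  ∑ t, C.comp (C.comp (a t) (sh (π t) (2 * r t) i)) (b t)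

variable {T : Type} [Fintype T] {W : T → 𝒱.Obj} {r : T → ℕ} {a : ∀ t, C.A (Z.prod (W t))}
  {b : ∀ t, C.A ((W t).prod Z)} {G' : T → Type} {ρ : ∀ t, G' t → C.A ((W t).prod (W t))}

/-- Sums of twisted summands. -/
theorem ck_sum (h : IsSum C Z W r a b ρ) {G : Type} {τ : G → C.A (Z.prod Z)}
    (hτ : ∀ g t, ∃ g' : G' t, C.comp (τ g) (a t) = C.comp (a t) (ρ t g') ∧
        C.comp (b t) (τ g) = C.comp (ρ t g') (b t)) {π : ∀ t, ℕ → C.A ((W t).prod (W t))}
    (hπ : ∀ t, IsCK H (W t) (π t))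
    (hg : ∀ t g i, C.comp (ρ t g) (π t i) = C.comp (π t i) (ρ t g)) :
    IsCK H Z (sumCK C r a b π) ∧
      ∀ g i, C.comp (τ g) (sumCK C r a b π i) = C.comp (sumCK C r a b π i) (τ g) := by
  classical
  have hsh : ∀ t g i, C.comp (ρ t g) (sh (π t) (2 * r t) i) =
      C.comp (sh (π t) (2 * r t) i) (ρ t g) := by
    intro t g i
    unfold sh
    split_ifs
    · exact hg t g _
    · rw [comp_zero, zero_comp]
  have hcomm : ∀ t i, C.comp (C.comp (b t) (a t)) (sh (π t) (2 * r t) i) =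
      C.comp (sh (π t) (2 * r t) i) (C.comp (b t) (a t)) := fun t i =>
    commutes_span (fun g => hsh t g i) (h.mem t)
  have hp : ∀ i j, C.comp (sumCK C r a b π i) (sumCK C r a b π j) =
      if i = j then sumCK C r a b π i else 0 := by
    intro i j
    simp only [sumCK]
    rw [diag_comp h _ _ fun t => hcomm t j]
    split_ifs with hij
    · subst hij
      exact Finset.sum_congr rfl fun t _ => by rw [sh_comp (hπ t), if_pos rfl]
    · exact Finset.sum_eq_zero fun t _ => by rw [sh_comp (hπ t), if_neg hij, comp_zero, zero_comp]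
  have hda : ∀ t, a t ∈ C.gr (Z.prod (W t)) ((Z.dim : ℤ) + -(r t : ℤ)) := fun t => by
    rw [← sub_eq_add_neg]; exact h.deg_a t
  have hact : ∀ (i : ℕ) (m : ℤ) (x : H.A Z), x ∈ H.gr Z m →
      H.act (H.cl (sumCK C r a b π i)) x = if m = i then x else 0 := by
    intro i m x hx
    have h1 : H.act (H.cl (sumCK C r a b π i)) x = ∑ t,
        H.act (H.cl (b t)) (H.act (H.cl (sh (π t) (2 * r t) i)) (H.act (H.cl (a t)) x)) := by
      simp only [sumCK]
      rw [map_sum, act_sum]
      refine Finset.sum_congr rfl fun t _ => ?_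
      rw [actH_comp, actH_comp]
    have h2 : ∀ t, H.act (H.cl (sh (π t) (2 * r t) i)) (H.act (H.cl (a t)) x) =
        if m = i then H.act (H.cl (a t)) x else 0 := by
      intro t
      rw [sh_act (hπ t) _ _ _ (actH_gr' (hda t) hx)]
      by_cases hm : m = i
      · rw [if_pos hm, if_pos (by push_cast; omega)]
      · rw [if_neg hm, if_neg (by push_cast; omega)]
    rw [h1]
    split_ifs with hm
    · have h4 : H.act (H.cl (dg C Z)) x = x := actH_dg H x
      rw [← h.sum, map_sum, act_sum] at h4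
      conv_rhs => rw [← h4]
      refine Finset.sum_congr rfl fun t _ => ?_
      rw [h2 t, if_pos hm, actH_comp]
    · refine Finset.sum_eq_zero fun t _ => ?_
      rw [h2 t, if_neg hm, H.act_map_zero]
  refine ⟨⟨?_, ?_, ?_, ?_, ?_, ?_, ?_⟩, ?_⟩
  · intro i
    refine Submodule.sum_mem _ fun t _ => ?_
    have h3 : sh (π t) (2 * r t) i ∈ C.gr ((W t).prod (W t)) (((W t).dim : ℤ) + 0) := by
      rw [add_zero]; exact sh_mem (hπ t) _ _
    have h2 := comp_mem C (comp_mem C (hda t) h3) (h.deg_b t)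
    have e : (Z.dim : ℤ) + (-(r t : ℤ) + 0 + (r t : ℤ)) = Z.dim := by ring
    rw [e] at h2
    exact h2
  · intro i hi
    refine Finset.sum_eq_zero fun t _ => ?_
    have := h.le t
    rw [sh_out (hπ t) _ _ (by omega), comp_zero, zero_comp]
  · intro i
    rw [hp, if_pos rfl]
  · intro i j hij
    rw [hp, if_neg hij]
  · rw [← h.sum]
    simp only [sumCK]
    rw [Finset.sum_comm]
    refine Finset.sum_congr rfl fun t _ => ?_
    have := h.le t
    rw [← sum_comp, ← comp_sum, sh_sum (hπ t) (2 * r t) (2 * Z.dim + 1) (by omega), comp_dg]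
  · intro i x hx
    rw [hact i i x hx, if_pos rfl]
  · intro i m x hm hx
    rw [hact i m x hx, if_neg hm]
  · intro g i
    simp only [sumCK]
    rw [comp_sum, sum_comp]
    refine Finset.sum_congr rfl fun t _ => ?_
    obtain ⟨g', ha, hb⟩ := hτ g t
    have e1 : C.comp (τ g) (C.comp (C.comp (a t) (sh (π t) (2 * r t) i)) (b t)) =
        C.comp (C.comp (C.comp (τ g) (a t)) (sh (π t) (2 * r t) i)) (b t) := by
      simp only [comp_assoc C]
    have e2 : C.comp (C.comp (C.comp (a t) (ρ t g')) (sh (π t) (2 * r t) i)) (b t) =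
        C.comp (C.comp (a t) (C.comp (ρ t g') (sh (π t) (2 * r t) i))) (b t) := by
      simp only [comp_assoc C]
    have e3 : C.comp (C.comp (a t) (C.comp (sh (π t) (2 * r t) i) (ρ t g'))) (b t) =
        C.comp (C.comp (a t) (sh (π t) (2 * r t) i)) (C.comp (ρ t g') (b t)) := by
      simp only [comp_assoc C]
    rw [e1, ha, e2, hsh, e3, ← hb]
    simp only [comp_assoc C]

end sum

end Pool.Agent.U3.QP
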