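import Pool.Agent.U981.EQ.Defs
import Pool.Agent.U3.SD.Defs
import Pool.Agent.X308.S.TriDefs

/-!
# Self-dual Chow-Kunneth decompositions compatible with finite group actions: definitions
-/

set_option autoImplicit false

open CategoryTheory AlgebraicGeometry

universe u v w

namespace Pool.Agent.U3.QP

open Pool.Agent.H914 Pool.Agent.H914.VarClass Pool.Agent.H914.VarClass.Obj Pool.Agent.W492.BB
  Pool.Agent.W550.Corr Pool.Agent.TH133 Pool.Agent.U3.SD Pool.Agent.U981.EQ
  Pool.Agent.X308.S

variable {k : Type u} [Field k] {𝒱 : VarClass k}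

section chow

variable (C : TheoryData.{u, v, 0} 𝒱 ℚ)

/-- `ρ` is an orthogonal action of the group `G` on the Chow motive of `X`: an action such that the
transpose of `ρ g` is `ρ g⁻¹`. For example, the graphs of an action of `G` on `X` by
automorphisms. -/
structure IsOrthAction {G : Type} [Group G] {X : 𝒱.Obj} (ρ : G → C.A (X.prod X)) : Prop
    extends IsAction C ρ where
  orth : ∀ g, tp C (ρ g) = ρ g⁻¹

/-- `h(Z)` is the orthogonal direct sum of summands of the twisted motives `h(V u)(-m u)`,
`dim V u + 2 (m u) = dim Z`, for `u` in a finite set. The projections are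
`f u : h(Z) → h(V u)(-m u)`, the inclusions are `c u` times the transpose of `f u`. The summands of
`h(V u)` are cut out by linear combinations of the correspondences `σ u g`. Examples: the quotient of
`X` by a finite group (one summand, the invariant part of `h(X)`); the blow-up of `X` in `W` of
codimension `r ≥ 2` (two summands, `h(X)` and `h(W × P)(-1)` for the projective space `P` of
dimension `r - 2`). -/
structure IsOrthSum (Z : 𝒱.Obj) {U : Type} [Fintype U] (V : U → 𝒱.Obj) (m : U → ℕ) (c : U → ℚ)
    (f : ∀ u, C.A (Z.prod (V u))) {G : U → Type} (σ : ∀ u, G u → C.A ((V u).prod (V u))) :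
    Prop where
  dim : ∀ u, (V u).dim + 2 * m u = Z.dim
  deg : ∀ u, C.Deg ((Z.dim : ℤ) - m u) (f u)
  mem : ∀ u, c u • C.comp (tp C (f u)) (f u) ∈ Submodule.span ℚ (Set.range (σ u))
  orth : ∀ u u', u ≠ u' → C.comp (tp C (f u)) (f u') = 0
  sum : ∑ u, c u • C.comp (f u) (tp C (f u)) = dg C Z

end chow

section weil

variable {C : TheoryData.{u, v, 0} 𝒱 ℚ} {K : Type w} [Field K] (H : WeilTheoryData.{u, v, w} C K)

/-- The homologically trivial self-correspondences (of all degrees) of `Y` form a nilpotent ideal:
for some `N` all compositions of `N` of them are zero. This holds if the motive of `Y` is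
finite-dimensional in the sense of Kimura. -/
def NilIdeal (Y : 𝒱.Obj) : Prop :=
  ∃ N : ℕ, ∀ x : Fin N → C.A (Y.prod Y), (∀ i, H.cl (x i) = 0) →
    (List.ofFn x).foldr C.comp (dg C Y) = 0

/-- The self-correspondences of degree zero of `X` which factor through sums of twists of motives of
varieties with `NilIdeal`: the span of the compositions `b ∘ a` of correspondences `a` from `X` to `Y`
and `b` from `Y` to `X`, of opposite degrees, for varieties `Y` with `NilIdeal`. -/
noncomputable def throughNil (X : 𝒱.Obj) : Submodule ℚ (C.A (X.prod X)) :=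
  Submodule.span ℚ {z | ∃ (Y : 𝒱.Obj) (n : ℤ) (a : C.A (X.prod Y)) (b : C.A (Y.prod X)),
    NilIdeal H Y ∧ C.Deg ((X.dim : ℤ) - n) a ∧ C.Deg ((Y.dim : ℤ) + n) b ∧ z = C.comp a b}

/-- The lower half of the cohomology of `X` is finite-dimensional: for `n < dim X` the projection onto
`H^n(X)` is induced by a correspondence in `throughNil H X`. Nothing is assumed about the middle
degree `n = dim X`. Examples: curves, surfaces, varieties with finite-dimensional motive satisfying the
standard conjecture of Kunneth type, complete intersections of ample divisors in Kimura-finite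
varieties which satisfy the Lefschetz standard conjecture. -/
def LowerFinite (X : 𝒱.Obj) : Prop := ∀ n < X.dim, ∃ z ∈ throughNil H X, IsProj H n z

/-- `X` has a self-dual Chow-Kunneth decomposition such that no self-correspondence of degree zero
raises the weights: all morphisms from `h^b(X)` to `h^a(X)` with `b < a` are zero. Examples:
surfaces, and all varieties whose diagonal is a sum of correspondences which factor through
surfaces. -/
def IsTriangular (X : 𝒱.Obj) : Prop :=
  ∃ π : ℕ → C.A (X.prod X), IsCK H X π ∧ IsSelfDual C π ∧ NoRaising C π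

/-- `X` has a self-dual Chow-Kunneth decomposition which commutes with all `ρ g`. -/
def EqSD {G : Type} {X : 𝒱.Obj} (ρ : G → C.A (X.prod X)) : Prop :=
  ∃ π : ℕ → C.A (X.prod X), IsCK H X π ∧ IsSelfDual C π ∧
    ∀ g i, C.comp (ρ g) (π i) = C.comp (π i) (ρ g)

/-- `BuiltSD H G X ρ`: the variety `X` with the self-correspondences `ρ g`, for `g` in the group `G`,
can be built in finitely many steps. This is the smallest class which

* contains all `(G, X, ρ)` if `ρ` is an orthogonal action of the finite group `G` on `h(X)`, and the
  lower half of the cohomology of `X` is finite-dimensional (`LowerFinite`), or `X` is triangular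
  (`IsTriangular`);
* is closed under products, with the diagonal action of `G` (the external products of `ρ g` and
  `σ g`);
* is closed under powers `P = X^(n+1)`, with the groups which permute the factors and act on them by
  the given group: the `τ g` are compositions of a permutation `t` of the factors and the external
  product of correspondences `ρ (u i)`;
* is closed under orthogonal sums (quotients, blow-ups, ...), with the correspondences which are
  induced by the given groups on the summands. -/
inductive BuiltSD : ∀ (G : Type) [Group G] (X : 𝒱.Obj), (G → C.A (X.prod X)) → Prop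
  | finite {G : Type} [Group G] [Finite G] {X : 𝒱.Obj} {ρ : G → C.A (X.prod X)}
      (hρ : IsOrthAction C ρ) (hX : LowerFinite H X ∨ IsTriangular H X) : BuiltSD G X ρ
  | prod {G : Type} [Group G] {X Y : 𝒱.Obj} {ρ : G → C.A (X.prod X)} {σ : G → C.A (Y.prod Y)}
      (hX : BuiltSD G X ρ) (hY : BuiltSD G Y σ) : BuiltSD G (X.prod Y) fun g =>
        C.mul (C.up (prodMap (fst X Y) (fst X Y)) (ρ g)) (C.up (prodMap (snd X Y) (snd X Y)) (σ g))
  | power {G G' : Type} [Group G] [Group G'] {X P : 𝒱.Obj} {ρ : G' → C.A (X.prod X)} {n : ℕ}
      {p : Fin (n + 1) → (P ⟶ X)} {τ : G → C.A (P.prod P)} (hX : BuiltSD G' X ρ) (hp : IsPower p)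
      (hτ : ∀ g, ∃ (σ : Equiv.Perm (Fin (n + 1))) (u : Fin (n + 1) → G') (t : P ⟶ P),
        (∀ i, t ≫ p i = p (σ i)) ∧ τ g = C.comp (C.graph t)
          (List.ofFn fun i => C.up (prodMap (p i) (p i)) (ρ (u i))).prod) : BuiltSD G P τ
  | sum {G : Type} [Group G] {Z : 𝒱.Obj} {τ : G → C.A (Z.prod Z)} {U : Type} [Fintype U]
      {V : U → 𝒱.Obj} {m : U → ℕ} {c : U → ℚ} {f : ∀ u, C.A (Z.prod (V u))} {G' : U → Type}
      [∀ u, Group (G' u)] {σ : ∀ u, G' u → C.A ((V u).prod (V u))}
      (hV : ∀ u, BuiltSD (G' u) (V u) (σ u)) (hs : IsOrthSum C Z V m c f σ)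
      (hτ : ∀ g u, ∃ g' : G' u, C.comp (τ g) (f u) = C.comp (f u) (σ u g') ∧
        C.comp (tp C (f u)) (τ g) = C.comp (σ u g') (tp C (f u))) : BuiltSD G Z τ

end weil

end Pool.Agent.U3.QP
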