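import Pool.Agent.U3.SD.Half

/-!
# Self-dual lifts of idempotents in the centraliser of a finite group
-/

set_option autoImplicit false

universe u

namespace Pool.Agent.U3.QP

open Pool.Agent.U3.SD

/-- Sums of nilpotent ideals are nilpotent. -/
lemma sup_pow_eq_bot {R : Type*} [Ring R] [Algebra ℚ R] {I I' : Submodule ℚ R}
    (hl : ∀ x ∈ I', ∀ r, r * x ∈ I') (hr : ∀ x ∈ I', ∀ r, x * r ∈ I') {N N' : ℕ}
    (h : I ^ N = ⊥) (h' : I' ^ N' = ⊥) : (I ⊔ I') ^ (N * N') = ⊥ := by
  have key : ∀ n, (I ⊔ I') ^ n ≤ I ^ n ⊔ I' := by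
    intro n
    induction n with
    | zero => rw [pow_zero, pow_zero]; exact le_sup_left
    | succ n ih =>
      rw [pow_succ]
      refine (mul_le_mul' ih le_rfl).trans ?_
      rw [Submodule.mul_sup, Submodule.sup_mul, ← pow_succ]
      refine sup_le (sup_le le_sup_left ?_) ?_
      · refine le_trans ?_ le_sup_right
        rw [Submodule.mul_le]
        exact fun x hx y _ => hr x hx y
      · refine le_trans ?_ le_sup_right
        rw [Submodule.mul_le]
        exact fun x _ y hy => hl y hy x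
  have h1 : (I ⊔ I') ^ N ≤ I' := by
    have := key N
    rwa [h, bot_sup_eq] at this
  rw [pow_mul, eq_bot_iff, ← h']
  exact pow_le_pow_left' h1 N'

variable {R : Type u} [Ring R] [Algebra ℚ R] {G : Type} [Group G] [Fintype G]
  {t : R →+ R} {J : R → Prop}

/-- **Equivariant self-dual lifts.** -/
theorem exists_half_eq (ht : IsInv t) (hJ : IsIdl t J) (ρ : G →* R) (hρ : ∀ g, t (ρ g) = ρ g⁻¹)
    (d : ℕ) (a : ℕ → R)
    (h1 : ∀ m < d, ∀ n < d, J (a m * a n - if m = n then a m else 0))
    (h2 : ∀ m < d, ∀ n < d, J (a m * t (a n))) (h3 : ∀ m < d, ∀ n < d, J (t (a m) * a n))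
    (h4 : ∀ n < d, ∃ I : Submodule ℚ R, (∀ r j, J j → r * a n * j ∈ I) ∧ ∀ x ∈ I, IsNilpotent x)
    (h5 : ∀ n < d, ∀ g, J (ρ g * a n - a n * ρ g)) :
    ∃ q : ℕ → R, (∀ m < d, ∀ n < d, q m * q n = if m = n then q m else 0) ∧
      (∀ m < d, ∀ n < d, q m * t (q n) = 0) ∧ (∀ m < d, ∀ n < d, t (q m) * q n = 0) ∧
      (∀ n < d, J (q n - a n)) ∧ ∀ n g, ρ g * q n = q n * ρ g := by
  classical
  have hG : (Fintype.card G : ℚ) ≠ 0 := by exact_mod_cast Fintype.card_ne_zero
  let A : Subalgebra ℚ R := Subalgebra.centralizer ℚ (Set.range ρ)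
  have hA : ∀ x : R, x ∈ A ↔ ∀ g, ρ g * x = x * ρ g := by
    intro x
    change x ∈ Subalgebra.centralizer ℚ (Set.range ρ) ↔ _
    rw [Subalgebra.mem_centralizer_iff]
    constructor
    · intro h g
      exact h _ ⟨g, rfl⟩
    · rintro h _ ⟨g, rfl⟩
      exact h g
  have htA : ∀ x ∈ A, t x ∈ A := by
    intro x hx
    rw [hA] at hx ⊢
    intro g
    have := congrArg t (hx g⁻¹)
    rw [ht.mul, ht.mul, hρ, inv_inv] at this
    exact this.symm
  let tA : A →+ A :=
    { toFun := fun x => ⟨t x, htA x x.2⟩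
      map_zero' := Subtype.ext (map_zero t)
      map_add' := fun x y => Subtype.ext (map_add t (x : R) y) }
  have htA' : ∀ x : A, ((tA x : A) : R) = t x := fun x => rfl
  have hinv : IsInv tA :=
    { mul := fun x y => Subtype.ext (ht.mul (x : R) y)
      inv := fun x => Subtype.ext (ht.inv (x : R)) }
  let JA : A → Prop := fun x => J x
  have hJA : IsIdl tA JA :=
    { zero := hJ.zero
      add := fun h h' => hJ.add h h'
      neg := fun h => hJ.neg h
      left := fun r h => hJ.left (r : R) h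
      right := fun r h => hJ.right (r : R) h
      inv := fun h => hJ.inv h }
  -- the averages
  have hsmul : ∀ (c : ℚ) (x : R), J x → J (c • x) := fun c x hx => by
    rw [Algebra.smul_def]
    exact hJ.left _ hx
  let av : ℕ → R := fun n => (Fintype.card G : ℚ)⁻¹ • ∑ g : G, ρ g * a n * ρ g⁻¹
  have hav : ∀ n, av n ∈ A := by
    intro n
    rw [hA]
    intro g
    simp only [av]
    rw [mul_smul_comm, smul_mul_assoc]
    congr 1
    rw [Finset.mul_sum, Finset.sum_mul]
    refine Fintype.sum_equiv (Equiv.mulLeft g) _ _ fun x => ?_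
    have e1 : ρ g * (ρ x * a n * ρ x⁻¹) = ρ (g * x) * a n * ρ x⁻¹ := by
      rw [map_mul]; simp only [mul_assoc]
    have e2 : ρ (g * x) * a n * ρ (g * x)⁻¹ * ρ g = ρ (g * x) * a n * ρ x⁻¹ := by
      have e3 : (g * x)⁻¹ * g = x⁻¹ := by group
      rw [mul_assoc _ (ρ (g * x)⁻¹), ← map_mul, e3]
    change ρ g * (ρ x * a n * ρ x⁻¹) = ρ (g * x) * a n * ρ (g * x)⁻¹ * ρ g
    rw [e1, e2]
  have hJav : ∀ n < d, J (av n - a n) := by
    intro n hn
    have e1 : av n - a n = (Fintype.card G : ℚ)⁻¹ • ∑ g : G, (ρ g * a n - a n * ρ g) * ρ g⁻¹ := by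
      simp only [av]
      have e2 : ∑ g : G, (ρ g * a n - a n * ρ g) * ρ g⁻¹ =
          ∑ g : G, ρ g * a n * ρ g⁻¹ - (Fintype.card G : ℚ) • a n := by
        rw [Finset.sum_congr rfl fun g _ => show (ρ g * a n - a n * ρ g) * ρ g⁻¹ =
          ρ g * a n * ρ g⁻¹ - a n by
            rw [sub_mul, mul_assoc (a n), ← map_mul, mul_inv_cancel, map_one, mul_one]]
        rw [Finset.sum_sub_distrib, Finset.sum_const, Finset.card_univ, Nat.cast_smul_eq_nsmul]
      rw [e2, smul_sub, smul_smul, inv_mul_cancel₀ hG, one_smul]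
    rw [e1]
    exact hsmul _ _ (hJ.sum _ _ fun g _ => hJ.right _ (h5 n hn g))
  let A' : ℕ → A := fun n => ⟨av n, hav n⟩
  obtain ⟨q, q1, q2, q3, q4, -⟩ := exists_half hinv hJA d A'
    (fun m hm n hn => by
      change J ((((A' m * A' n - if m = n then A' m else 0 : A)) : R))
      have e : (((A' m * A' n - if m = n then A' m else 0 : A)) : R) =
          av m * av n - if m = n then av m else 0 := by
        split_ifs <;> rfl
      rw [e]
      have e1 := hJ.mul_congr (hJav m hm) (hJav n hn)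
      have e2 := h1 m hm n hn
      by_cases hmn : m = n
      · rw [if_pos hmn] at e2 ⊢
        have e3 : av m * av n - av m = (av m * av n - a m * a n) + (a m * a n - a m) -
            (av m - a m) := by abel
        rw [e3]
        exact hJ.sub (hJ.add e1 e2) (hJav m hm)
      · rw [if_neg hmn] at e2 ⊢
        have e3 : av m * av n - 0 = (av m * av n - a m * a n) + (a m * a n - 0) := by abel
        rw [e3]
        exact hJ.add e1 e2)
    (fun m hm n hn => by
      change J (av m * t (av n))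
      have e1 := hJ.mul_congr (hJav m hm) (b := t (av n)) (b' := t (a n)) (by
        rw [← map_sub]; exact hJ.inv (hJav n hn))
      exact hJ.of_sub e1 (h2 m hm n hn))
    (fun m hm n hn => by
      change J (t (av m) * av n)
      have e1 := hJ.mul_congr (a := t (av m)) (a' := t (a m)) (by
        rw [← map_sub]; exact hJ.inv (hJav m hm)) (hJav n hn)
      exact hJ.of_sub e1 (h3 m hm n hn))
    (fun n hn x hx => by
      obtain ⟨I, hI, hnil⟩ := h4 n hn
      have e : av n * (x : R) ∈ I := by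
        simp only [av]
        rw [smul_mul_assoc, Finset.sum_mul]
        refine I.smul_mem _ (I.sum_mem fun g _ => ?_)
        rw [mul_assoc]
        exact hI _ _ (hJ.left _ hx)
      obtain ⟨N, hN⟩ := hnil _ e
      exact ⟨N, Subtype.ext hN⟩) d le_rfl
  refine ⟨fun n => q n, ?_, ?_, ?_, ?_, ?_⟩
  · intro m hm n hn
    have := congrArg (fun x : A => (x : R)) (q1 m hm n hn)
    by_cases hmn : m = n
    · rw [if_pos hmn] at this ⊢; exact this
    · rw [if_neg hmn] at this ⊢; exact this
  · intro m hm n hn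
    exact congrArg (fun x : A => (x : R)) (q2 m hm n hn)
  · intro m hm n hn
    exact congrArg (fun x : A => (x : R)) (q3 m hm n hn)
  · intro n hn
    have h6 : J ((q n : R) - av n) := q4 n hn
    have : (q n : R) - a n = ((q n : R) - av n) + (av n - a n) := by abel
    rw [this]
    exact hJ.add h6 (hJav n hn)
  · intro n g
    exact (hA _).1 (q n).2 g

end Pool.Agent.U3.QP
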