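import Pool.Agent.U3.QP.Kim
import Pool.Agent.U3.QP.Ring
import Pool.Agent.U3.QP.Defs

/-!
# Correspondences through Kimura-finite varieties generate nilpotent ideals
-/

set_option autoImplicit false

open CategoryTheory AlgebraicGeometry

universe u v w

namespace Pool.Agent.U3.QP

open Pool.Agent.H914 Pool.Agent.H914.VarClass Pool.Agent.H914.VarClass.Obj Pool.Agent.W492.BB
  Pool.Agent.W550.Corr Pool.Agent.TH133 Pool.Agent.TH829.Kim Pool.Agent.U3.SD

set_option linter.unusedSectionVars false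

variable {k : Type u} [Field k] {𝒱 : VarClass k}

variable {C : TheoryData.{u, v, 0} 𝒱 ℚ} [hC : IsChowProj C] {K : Type w} [Field K]
  {H : WeilTheoryData.{u, v, w} C K} [hH : IsWeilProj H] {X Y Z W : 𝒱.Obj}

include hC hH

variable (H) in
/-- The two-sided ideal generated by `z` times the homologically trivial correspondences is
contained in a nilpotent ideal. -/
def Str (z : Cor C X) : Prop :=
  ∃ I : Submodule ℚ (Cor C X), (∀ x ∈ I, ∀ r, r * x ∈ I) ∧ (∀ x ∈ I, ∀ r, x * r ∈ I) ∧
    (∀ r, ∀ j ∈ triv H X, r * z * j ∈ I) ∧ ∃ N : ℕ, I ^ N = ⊥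

lemma Str.add {z z' : Cor C X} (h : Str H z) (h' : Str H z') : Str H (z + z') := by
  obtain ⟨I, h1, h2, h3, N, h4⟩ := h
  obtain ⟨I', h1', h2', h3', N', h4'⟩ := h'
  refine ⟨I ⊔ I', ?_, ?_, ?_, N * N', sup_pow_eq_bot h1' h2' h4 h4'⟩
  · intro x hx r
    obtain ⟨y, hy, y', hy', rfl⟩ := Submodule.mem_sup.1 hx
    rw [mul_add]
    exact Submodule.mem_sup.2 ⟨_, h1 y hy r, _, h1' y' hy' r, rfl⟩
  · intro x hx r
    obtain ⟨y, hy, y', hy', rfl⟩ := Submodule.mem_sup.1 hx
    rw [add_mul]
    exact Submodule.mem_sup.2 ⟨_, h2 y hy r, _, h2' y' hy' r, rfl⟩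
  · intro r j hj
    rw [mul_add, add_mul]
    exact Submodule.mem_sup.2 ⟨_, h3 r j hj, _, h3' r j hj, rfl⟩

lemma Str.zero : Str H (0 : Cor C X) :=
  ⟨⊥, fun x hx r => by rw [(Submodule.mem_bot _).1 hx, mul_zero]; exact Submodule.zero_mem _,
    fun x hx r => by rw [(Submodule.mem_bot _).1 hx, zero_mul]; exact Submodule.zero_mem _,
    fun r j _ => by rw [mul_zero, zero_mul]; exact Submodule.zero_mem _, 1, pow_one _⟩

lemma Str.smul (q : ℚ) {z : Cor C X} (h : Str H z) : Str H (q • z) := by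
  obtain ⟨I, h1, h2, h3, N, h4⟩ := h
  refine ⟨I, h1, h2, fun r j hj => ?_, N, h4⟩
  rw [mul_smul_comm, smul_mul_assoc]
  exact I.smul_mem _ (h3 r j hj)

omit hH in
lemma aux1 (a : C.A (X.prod Y)) (b : C.A (Y.prod X)) (j r : C.A (X.prod X)) :
    C.comp j (C.comp (C.comp a b) r) = C.comp (C.comp (C.comp j a) (dg C Y)) (C.comp b r) := by
  rw [comp_dg]
  simp only [comp_assoc C]

omit hH in
lemma aux2 (a : C.A (X.prod Y)) (b : C.A (Y.prod X)) (j r u v : C.A (X.prod X))
    (y : C.A (Y.prod Y)) :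
    C.comp (C.comp j (C.comp (C.comp a b) r)) (C.comp (C.comp (C.comp u a) y) (C.comp b v)) =
      C.comp (C.comp (C.comp j a) (C.comp (C.comp (C.comp (C.comp b r) u) a) y))
        (C.comp b v) := by
  simp only [comp_assoc C]

lemma aux3 (a : C.A (X.prod Y)) (b : C.A (Y.prod X)) (r : C.A (X.prod X)) {u : C.A (X.prod X)}
    (hu : H.cl u = 0) : H.cl (C.comp (C.comp (C.comp b r) u) a) = 0 := by
  rw [cl_comp, cl_comp, hu, comp_zero, zero_comp]

omit hH in
lemma aux4 (a : C.A (X.prod Y)) (b : C.A (Y.prod X)) (u : C.A (X.prod X)) :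
    C.comp (C.comp (C.comp u a) (0 : C.A (Y.prod Y))) b = 0 := by
  rw [comp_zero, zero_comp]

/-- Correspondences through a variety with `NilIdeal`. -/
theorem str_comp {a : C.A (X.prod Y)} {b : C.A (Y.prod X)} (hY : NilIdeal H Y) :
    Str H (X := X) (C.comp a b) := by
  obtain ⟨K₀, hK⟩ := hY.pow_eq
  let z : Cor C X := C.comp a b
  let I : Submodule ℚ (Cor C X) := Submodule.span ℚ {x | ∃ r : Cor C X, ∃ j ∈ triv H X, x = r * z * j}
  let P : ℕ → Submodule ℚ (Cor C X) := fun n => Submodule.span ℚ {x | ∃ u ∈ triv H X,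
    ∃ v : C.A (X.prod X), ∃ y ∈ triv H Y ^ n,
      x = C.comp (C.comp (C.comp (u : C.A (X.prod X)) a) (y : C.A (Y.prod Y))) (C.comp b v)}
  have hI : ∀ r : Cor C X, ∀ j ∈ triv H X, r * z * j ∈ I := fun r j hj =>
    Submodule.subset_span ⟨r, j, hj, rfl⟩
  have key : ∀ n, I ^ (n + 1) ≤ P n := by
    intro n
    induction n with
    | zero =>
      rw [zero_add, pow_one]
      apply Submodule.span_le.2
      rintro _ ⟨r, j, hj, rfl⟩
      refine Submodule.subset_span ⟨j, hj, r, 1, ?_, ?_⟩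
      · rw [pow_zero]
        exact Submodule.one_le.1 le_rfl
      · exact aux1 a b j r
    | succ n ih =>
      rw [pow_succ]
      refine (mul_le_mul' ih le_rfl).trans ?_
      rw [Submodule.span_mul_span]
      apply Submodule.span_le.2
      rintro _ ⟨x, ⟨u, hu, v, y, hy, rfl⟩, _, ⟨r, j, hj, rfl⟩, rfl⟩
      let w : Cor C Y := C.comp (C.comp (C.comp b (r : C.A (X.prod X))) (u : C.A (X.prod X))) a
      have hw : w ∈ triv H Y := by
        rw [mem_triv]
        exact aux3 a b r hu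
      refine Submodule.subset_span ⟨j, hj, v, y * w, ?_, ?_⟩
      · rw [pow_succ]
        exact Submodule.mul_mem_mul hy hw
      · exact aux2 a b j r u v y
  refine ⟨I, ?_, ?_, hI, K₀ + 1, ?_⟩
  · intro x hx r
    induction hx using Submodule.span_induction with
    | mem x hx =>
      obtain ⟨r', j, hj, rfl⟩ := hx
      rw [← mul_assoc, ← mul_assoc]
      exact hI _ _ hj
    | zero => rw [mul_zero]; exact I.zero_mem
    | add x y _ _ hx hy => rw [mul_add]; exact I.add_mem hx hy
    | smul q x _ hx => rw [mul_smul_comm]; exact I.smul_mem _ hx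
  · intro x hx r
    induction hx using Submodule.span_induction with
    | mem x hx =>
      obtain ⟨r', j, hj, rfl⟩ := hx
      rw [mul_assoc]
      exact hI _ _ (triv_mul_right r hj)
    | zero => rw [zero_mul]; exact I.zero_mem
    | add x y _ _ hx hy => rw [add_mul]; exact I.add_mem hx hy
    | smul q x _ hx => rw [smul_mul_assoc]; exact I.smul_mem _ hx
  · rw [eq_bot_iff]
    refine (key K₀).trans ?_
    apply Submodule.span_le.2
    rintro _ ⟨u, -, v, y, hy, rfl⟩
    rw [hK] at hy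
    have hy0 : y = 0 := (Submodule.mem_bot _).1 hy
    subst hy0
    exact (Submodule.mem_bot (R := ℚ) (M := Cor C X)).2 (aux4 a (C.comp b v) u)

/-- Elements of `throughNil`. -/
theorem str_of_mem {z : C.A (X.prod X)} (hz : z ∈ throughNil H X) : Str H (X := X) z := by
  unfold throughNil at hz
  induction hz using Submodule.span_induction with
  | mem x hx =>
    obtain ⟨Y, n, a, b, hY, -, -, rfl⟩ := hx
    exact str_comp hY
  | zero => exact Str.zero
  | add x y _ _ hx hy => exact Str.add hx hy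
  | smul q x _ hx => exact Str.smul q hx

/-- The version in the ring of correspondences of degree zero. -/
lemma Str.exists_nil {z : cor0 C X} (h : Str H (z : Cor C X)) : ∃ I : Submodule ℚ (cor0 C X),
    (∀ r j, JH H X j → r * z * j ∈ I) ∧ ∀ x ∈ I, IsNilpotent x := by
  obtain ⟨I, -, -, h3, N, h4⟩ := h
  refine ⟨I.comap (cor0 C X).val.toLinearMap, fun r j hj => ?_, fun x hx => ⟨N, ?_⟩⟩
  · refine h3 (r : Cor C X) (j : Cor C X) ?_
    exact hom_zero_of_act H fun x => LinearMap.congr_fun hj x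
  · have h5 := Submodule.pow_mem_pow I (show (x : Cor C X) ∈ I from hx) N
    rw [h4, Submodule.mem_bot] at h5
    exact Subtype.ext h5

end Pool.Agent.U3.QP
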