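import Pool.Agent.N174.OV.Main
import Pool.Agent.U3.SD.Main
import Pool.Agent.U3.QP.Defs

/-!
# Kimura-finite varieties: the ideal of homologically trivial correspondences is nilpotent
-/

set_option autoImplicit false

open CategoryTheory AlgebraicGeometry

universe u v w

namespace Pool.Agent.U3.QP

open Pool.Agent.TH829.Kim

section ring

variable {R : Type*} [Ring R] [Algebra ℚ R] {tr : R →ₗ[ℚ] ℚ}

/-- The nilpotency of the elements of the radical, with a uniform exponent. -/
theorem pow_eq_zero_of_inRad (hsym : ∀ a b, tr (a * b) = tr (b * a)) {f : R} (hf : f * f = f)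
    {n m : ℕ} (hE : Killed tr (-1) f n) (hO : Killed tr 1 (1 - f) m) {x : R} (hx : InRad tr x) :
    x ^ ((n + 2) * (2 ^ (m + 1) - 1 + 1)) = 0 := by
  set g := 1 - f with hg
  have hgg : g * g = g := by
    rw [hg, mul_sub, sub_mul, sub_mul, one_mul, one_mul, mul_one, hf, sub_self, sub_zero]
  let B : Submodule ℚ R :=
    { carrier := {a | InRad tr a ∧ g * a = a}
      zero_mem' := ⟨fun γ => by rw [zero_mul, map_zero], mul_zero _⟩
      add_mem' := by
        rintro a b ⟨h1, h2⟩ ⟨h3, h4⟩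
        exact ⟨h1.add h3, by rw [mul_add, h2, h4]⟩
      smul_mem' := by
        rintro q a ⟨h1, h2⟩
        refine ⟨fun γ => ?_, by rw [mul_smul_comm, h2]⟩
        rw [smul_mul_assoc, map_smul, h1, smul_zero] }
  let N : Submodule ℚ R :=
    { carrier := {a | InRad tr a}
      zero_mem' := fun γ => by rw [zero_mul, map_zero]
      add_mem' := fun {a b} h1 h2 => InRad.add h1 h2
      smul_mem' := fun q a h1 γ => by rw [smul_mul_assoc, map_smul, h1, smul_zero] }
  have hB : ∀ x ∈ B, ∀ y ∈ B, x * y ∈ B := by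
    rintro a ⟨h1, h2⟩ b ⟨h3, h4⟩
    exact ⟨h1.mul_right b, by rw [← mul_assoc, h2]⟩
  have hBn : B ^ (2 ^ (m + 1) - 1) = ⊥ := by
    rw [eq_bot_iff]
    apply nagata_higman m hB bot_le
    · intro x _ y hy
      rw [Submodule.mem_bot] at hy ⊢
      rw [hy, mul_zero]
    · intro x hx y _
      rw [Submodule.mem_bot] at hx ⊢
      rw [hx, zero_mul]
    · rintro a ⟨h1, h2⟩
      rw [Submodule.mem_bot]
      exact h1.pow_eq_zero h2 one_ne_zero hO
  let G : Submodule ℚ R := Submodule.span ℚ {g} * ⊤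
  let S : Submodule ℚ R := N * G
  have hGN : G * N ≤ B := by
    rw [Submodule.mul_le]
    intro a ha b hb
    refine ⟨hb.mul_left hsym a, ?_⟩
    obtain ⟨c, rfl⟩ : ∃ c, a = g * c := by
      have h1 : Submodule.span ℚ {g} * ⊤ ≤ LinearMap.range (LinearMap.mulLeft ℚ g) := by
        rw [Submodule.mul_le]
        intro u hu v _
        obtain ⟨q, rfl⟩ := Submodule.mem_span_singleton.1 hu
        exact ⟨q • v, by rw [LinearMap.mulLeft_apply, mul_smul_comm, smul_mul_assoc]⟩
      obtain ⟨c, hc⟩ := h1 ha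
      exact ⟨c, hc.symm⟩
    rw [← mul_assoc, ← mul_assoc, hgg]
  have hSpow : ∀ k, S ^ (k + 1) ≤ N * B ^ k * G := by
    intro k
    induction k with
    | zero => rw [zero_add, pow_one, pow_zero, mul_one]
    | succ k ih =>
      calc S ^ (k + 1 + 1) = S ^ (k + 1) * S := pow_succ _ _
        _ ≤ N * B ^ k * G * (N * G) := by gcongr
        _ = N * B ^ k * (G * N) * G := by simp only [mul_assoc]
        _ ≤ N * B ^ k * B * G := by gcongr
        _ = N * B ^ (k + 1) * G := by rw [pow_succ]; simp only [mul_assoc]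
  have hSnil : S ^ (2 ^ (m + 1) - 1 + 1) = ⊥ := by
    rw [eq_bot_iff]
    refine (hSpow _).trans ?_
    rw [hBn, Submodule.mul_bot, Submodule.bot_mul]
  have hSl : ∀ a, ∀ s ∈ S, a * s ∈ S := by
    intro a s hs
    have h1 : (⊤ : Submodule ℚ R) * S ≤ S := by
      rw [← mul_assoc]
      have h2 : (⊤ : Submodule ℚ R) * N ≤ N := Submodule.mul_le.2 fun u _ v hv =>
        InRad.mul_left hsym hv u
      exact mul_le_mul' h2 le_rfl
    exact h1 (Submodule.mul_mem_mul Submodule.mem_top hs)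
  have hSr : ∀ a, ∀ s ∈ S, s * a ∈ S := by
    intro a s hs
    have h1 : S * (⊤ : Submodule ℚ R) ≤ S := by
      rw [show S * (⊤ : Submodule ℚ R) = N * (Submodule.span ℚ {g} * (⊤ * ⊤)) by
        simp only [S, G, mul_assoc]]
      exact mul_le_mul' le_rfl (mul_le_mul' le_rfl le_top)
    exact h1 (Submodule.mul_mem_mul hs Submodule.mem_top)
  have hxf : (x * f) ^ (n + 2) = 0 := by
    have h1 : (f * x) ^ (n + 1) = 0 := (hx.mul_left hsym f).pow_eq_zero
      (by rw [← mul_assoc, hf]) (by norm_num) hE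
    have h2 : ∀ k, (x * f) ^ (k + 1) = x * (f * x) ^ k * f := by
      intro k
      induction k with
      | zero => simp
      | succ k ih =>
        rw [pow_succ, ih, pow_succ (f * x)]
        simp only [mul_assoc]
    rw [show n + 2 = (n + 1) + 1 by ring, h2, h1, mul_zero, zero_mul]
  have hb : x * g ∈ S := by
    have : g ∈ G := by
      have := Submodule.mul_mem_mul (Submodule.mem_span_singleton_self (R := ℚ) g)
        (Submodule.mem_top (R := ℚ) (x := (1 : R)))
      rwa [mul_one] at this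
    exact Submodule.mul_mem_mul (show x ∈ N from hx) this
  have hxS : ∀ k, x ^ (k + 1) - (x * f) ^ (k + 1) ∈ S := by
    have hdec : x - x * f = x * g := by rw [hg, mul_sub, mul_one]
    intro k
    induction k with
    | zero =>
      rw [zero_add, pow_one, pow_one, hdec]
      exact hb
    | succ k ih =>
      have e : x ^ (k + 1 + 1) - (x * f) ^ (k + 1 + 1) =
          (x ^ (k + 1) - (x * f) ^ (k + 1)) * x + (x * f) ^ (k + 1) * (x - x * f) := by
        rw [pow_succ, pow_succ (x * f)]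
        noncomm_ring
      rw [e, hdec]
      exact S.add_mem (hSr _ _ ih) (hSl _ _ hb)
  have h1 := hxS (n + 1)
  rw [show n + 1 + 1 = n + 2 by ring, hxf, sub_zero] at h1
  rw [pow_mul]
  have h2 := Submodule.pow_mem_pow S h1 (2 ^ (m + 1) - 1 + 1)
  rw [hSnil, Submodule.mem_bot] at h2
  exact h2

/-- The radical is a nilpotent ideal. -/
theorem rad_pow_eq_bot (hsym : ∀ a b, tr (a * b) = tr (b * a)) {f : R} (hf : f * f = f)
    {n m : ℕ} (hE : Killed tr (-1) f n) (hO : Killed tr 1 (1 - f) m) (N : Submodule ℚ R)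
    (hN : ∀ x ∈ N, InRad tr x) (hmul : ∀ x ∈ N, ∀ y ∈ N, x * y ∈ N) : ∃ K : ℕ, N ^ K = ⊥ := by
  obtain ⟨k, hk⟩ : ∃ k, (n + 2) * (2 ^ (m + 1) - 1 + 1) = k + 1 :=
    Nat.exists_eq_succ_of_ne_zero (by positivity)
  refine ⟨2 ^ (k + 1) - 1, ?_⟩
  rw [eq_bot_iff]
  apply nagata_higman k hmul bot_le
  · intro x _ y hy
    rw [Submodule.mem_bot] at hy ⊢
    rw [hy, mul_zero]
  · intro x hx y _
    rw [Submodule.mem_bot] at hx ⊢
    rw [hx, zero_mul]
  · intro x hx
    rw [Submodule.mem_bot, ← hk]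
    exact pow_eq_zero_of_inRad hsym hf hE hO (hN x hx)

end ring

open Pool.Agent.H914 Pool.Agent.H914.VarClass Pool.Agent.H914.VarClass.Obj Pool.Agent.W492.BB
  Pool.Agent.W550.Corr Pool.Agent.TH133 Pool.Agent.TH829.Prime
  Pool.Agent.N174.KN Pool.Agent.Y107 Pool.Agent.N174.OV

set_option linter.unusedSectionVars false

variable {k : Type u} [Field k] {𝒱 : VarClass k}

variable {C : TheoryData.{u, v, 0} 𝒱 ℚ} [hC : IsChowProj C] {K : Type w} [Field K]
  (H : WeilTheoryData.{u, v, w} C K) [hH : IsWeilProj H] {X Y Z W : 𝒱.Obj}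

lemma cl_smul_zero (q : ℚ) {a : C.A Z} (h : H.cl a = 0) : H.cl (q • a) = 0 := by
  rw [Algebra.smul_def, map_mul, h, mul_zero]

lemma cl_add_zero {a b : C.A Z} (h : H.cl a = 0) (h' : H.cl b = 0) : H.cl (a + b) = 0 := by
  rw [map_add, h, h', add_zero]

/-- The homologically trivial self-correspondences of all degrees. -/
def triv (Y : 𝒱.Obj) : Submodule ℚ (Cor C Y) where
  carrier := {z | H.cl (X := Y.prod Y) z = 0}
  zero_mem' := map_zero H.cl
  add_mem' {a b} ha hb := cl_add_zero H (Z := Y.prod Y) ha hb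
  smul_mem' q a ha := cl_smul_zero H (Z := Y.prod Y) q ha

variable {H}

lemma mem_triv {z : Cor C Y} : z ∈ triv H Y ↔ H.cl (X := Y.prod Y) z = 0 := Iff.rfl

include hC hH

lemma triv_mul_left (r : Cor C Y) {z : Cor C Y} (hz : z ∈ triv H Y) : r * z ∈ triv H Y :=
  Pool.Agent.U3.SD.cl_mul_left (H := H) (X := Y) hz

lemma triv_mul_right (r : Cor C Y) {z : Cor C Y} (hz : z ∈ triv H Y) : z * r ∈ triv H Y :=
  Pool.Agent.U3.SD.cl_mul_right (H := H) (X := Y) hz

/-- The ideal of homologically trivial self-correspondences of a Kimura-finite variety is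
nilpotent. -/
theorem triv_pow (h : IsKimuraFinite C (ratFam C) Y) : ∃ K : ℕ, triv H Y ^ K = ⊥ := by
  obtain ⟨p, hp, ⟨n, hn, h2⟩, ⟨m, hm, h3⟩⟩ := (isNCKimuraFinite_iff (one_ne H) Y).2 h
  obtain ⟨n, rfl⟩ := Nat.exists_eq_add_of_le' hn
  obtain ⟨m, rfl⟩ := Nat.exists_eq_add_of_le' hm
  set e : Cor C Y := p with he
  have hee : e * e = e := hp
  have hE : DieC true e (n + 1) := fun W x y => by
    have h4 := h2 W x y
    rwa [altPower_eq] at h4
  have hO : DieC false (1 - e) (m + 1) := fun W x y => by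
    have h4 := h3 W x y
    rwa [symPower_eq] at h4
  exact rad_pow_eq_bot (trC_comm (hne := one_ne H)) hee (hE.killed (hne := one_ne H))
    (hO.killed (hne := one_ne H)) (triv H Y) (fun x hx => inRad_of_cl H hx)
    (fun x _ y hy => triv_mul_left x hy)

omit hC hH in
lemma foldr_zero (x : Fin 0 → C.A (Y.prod Y)) :
    (List.ofFn x).foldr C.comp (dg C Y) = dg C Y := by
  rw [List.ofFn_zero, List.foldr_nil]

omit hC hH in
lemma foldr_succ {N : ℕ} (x : Fin (N + 1) → C.A (Y.prod Y)) :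
    (List.ofFn x).foldr C.comp (dg C Y) =
      C.comp (x 0) ((List.ofFn fun i => x i.succ).foldr C.comp (dg C Y)) := by
  rw [List.ofFn_succ, List.foldr_cons]

lemma foldr_mem : ∀ (N : ℕ) (x : Fin N → C.A (Y.prod Y)), (∀ i, H.cl (x i) = 0) →
    ∃ z : Cor C Y, z ∈ triv H Y ^ N ∧
      (z : C.A (Y.prod Y)) = (List.ofFn x).foldr C.comp (dg C Y)
  | 0, x, _ => by
    rw [foldr_zero]
    refine ⟨1, ?_, rfl⟩
    rw [pow_zero]
    exact Submodule.one_le.1 le_rfl
  | N + 1, x, hx => by
    rw [foldr_succ]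
    obtain ⟨z, h1, h2⟩ := foldr_mem N (fun i => x i.succ) fun i => hx i.succ
    rw [← h2]
    let w : Cor C Y := x 0
    refine ⟨z * w, ?_, rfl⟩
    rw [pow_succ]
    exact Submodule.mul_mem_mul h1 (hx 0)

/-- Kimura-finite varieties satisfy `NilIdeal`. -/
theorem nilIdeal_of_kimura (h : IsKimuraFinite C (ratFam C) Y) : NilIdeal H Y := by
  obtain ⟨N, hN⟩ := triv_pow (H := H) h
  refine ⟨N, fun x hx => ?_⟩
  obtain ⟨z, h1, h2⟩ := foldr_mem (H := H) N x hx
  rw [hN] at h1
  rw [← h2]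
  exact (Submodule.mem_bot (R := ℚ) (M := Cor C Y)).1 h1

/-- The powers of the ideal are spanned by the compositions. -/
lemma triv_pow_le (N : ℕ) : triv H Y ^ N ≤ Submodule.span ℚ
    {z : Cor C Y | ∃ x : Fin N → C.A (Y.prod Y), (∀ i, H.cl (x i) = 0) ∧
      (z : C.A (Y.prod Y)) = (List.ofFn x).foldr C.comp (dg C Y)} := by
  induction N with
  | zero =>
    rw [pow_zero, Submodule.one_le]
    exact Submodule.subset_span ⟨fun i => i.elim0, fun i => i.elim0, (foldr_zero _).symm⟩
  | succ N ih =>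
    rw [pow_succ, Submodule.mul_le]
    intro y hy w hw
    have h1 := ih hy
    clear hy
    induction h1 using Submodule.span_induction with
    | mem y hy =>
      obtain ⟨x, hx, hyx⟩ := hy
      refine Submodule.subset_span ⟨Fin.cons (α := fun _ => C.A (Y.prod Y)) w x, fun i => ?_, ?_⟩
      · refine Fin.cases ?_ (fun j => ?_) i
        · exact hw
        · exact hx j
      · rw [foldr_succ]
        have e : ∀ (y w : C.A (Y.prod Y)), y = (List.ofFn x).foldr C.comp (dg C Y) →
            C.comp w y = C.comp w ((List.ofFn x).foldr C.comp (dg C Y)) := fun y w h => by rw [h]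
        exact e y w hyx
    | zero => rw [zero_mul]; exact Submodule.zero_mem _
    | add y y' _ _ hy hy' => rw [add_mul]; exact Submodule.add_mem _ hy hy'
    | smul q y _ hy => rw [smul_mul_assoc]; exact Submodule.smul_mem _ _ hy

lemma _root_.Pool.Agent.U3.QP.NilIdeal.pow_eq (h : NilIdeal H Y) : ∃ N : ℕ, triv H Y ^ N = ⊥ := by
  obtain ⟨N, hN⟩ := h
  refine ⟨N, ?_⟩
  rw [eq_bot_iff]
  refine (triv_pow_le N).trans ?_
  rw [Submodule.span_le]
  rintro z ⟨x, hx, hz⟩
  exact (Submodule.mem_bot (R := ℚ) (M := Cor C Y)).2 (hz.trans (hN x hx))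

end Pool.Agent.U3.QP
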